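import Mathlib

namespace Pool.Agent.Results.MP_f3b8e9_an.NotDense
open Complex Set Filter Topology
open scoped Real

/-- the differential polynomial `(d/dz)^2` -/
noncomputable def ell (f : ℂ → ℂ) : ℂ → ℂ := deriv (deriv f)

/-- both boundary functionals `f ↦ f'(0)` and `f ↦ f'(π)` vanish -/
def InD (f : ℂ → ℂ) : Prop := deriv f 0 = 0 ∧ deriv f π = 0

/-- root vectors (zero allowed) -/
def Root (Ω : Set ℂ) (g : ℂ → ℂ) : Prop := DifferentiableOn ℂ g Ω ∧ ∃ (lam : ℂ) (m : ℕ), 1 ≤ m ∧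
  (∀ j < m, InD (ell^[j] g)) ∧ EqOn ((fun u => ell u - lam • u)^[m] g) 0 Ω

lemma dd (j : ℕ) : ∀ u, deriv (ell^[j] u) = iteratedDeriv (2 * j + 1) u := by
  induction j with
  | zero => intro u; simp
  | succ j ih =>
    intro u
    rw [Function.iterate_succ_apply, ih, ell, ← iteratedDeriv_succ', ← iteratedDeriv_succ']; rfl

section
variable {Ω : Set ℂ} (ho : IsOpen Ω) (hc : Convex ℝ Ω)
include ho hc

lemma ext1 (μ : ℂ) (f G : ℂ → ℂ) (hf : DifferentiableOn ℂ f Ω) (hG : Differentiable ℂ G)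
    (h : ∀ z ∈ Ω, deriv f z - μ * f z = G z) : ∃ F, Differentiable ℂ F ∧ EqOn f F Ω := by
  obtain ⟨P, hP⟩ := Differentiable.isExactOn_univ
    (f := fun z => exp (-μ * z) * G z) (by fun_prop)
  have dP : Differentiable ℂ P := fun z => (hP z trivial).differentiableAt
  obtain ⟨a, ha⟩ := ho.exists_is_const_of_deriv_eq_zero hc.isPreconnected
    (f := fun z => exp (-μ * z) * f z - P z) (by fun_prop) fun z hz => by
      have := ((((hasDerivAt_id' z).const_mul (-μ)).cexp.fun_mul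
        (hf.differentiableAt (ho.mem_nhds hz)).hasDerivAt).fun_sub (hP z trivial)).deriv
      rw [this]; simp only [← h z hz, Pi.zero_apply]; ring
  refine ⟨fun z => exp (μ * z) * (P z + a), by fun_prop, fun z hz => ?_⟩
  simp only [← ha z hz, add_sub_cancel, ← mul_assoc, ← exp_add]
  simp

lemma ext2 (lam : ℂ) (m : ℕ) : ∀ g, DifferentiableOn ℂ g Ω →
    EqOn ((fun u => ell u - lam • u)^[m] g) 0 Ω → ∃ G, Differentiable ℂ G ∧ EqOn g G Ω := by
  induction m with
  | zero => exact fun g _ h => ⟨0, differentiable_const 0, h⟩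
  | succ m ih =>
    intro g hg h
    have h1 := hg.deriv ho
    obtain ⟨G, dG, hG⟩ := ih (ell g - lam • g) ((h1.deriv ho).sub (hg.const_smul lam)) h
    obtain ⟨μ, rfl⟩ := IsSepClosed.exists_eq_mul_self lam
    obtain ⟨F, dF, hF⟩ := ext1 ho hc μ (fun z => deriv g z + μ * g z) G (by fun_prop) dG
      fun z hz => by
        have := ((h1.differentiableAt (ho.mem_nhds hz)).hasDerivAt.fun_add
          ((hg.differentiableAt (ho.mem_nhds hz)).hasDerivAt.const_mul μ)).deriv
        rw [this, ← hG hz]; simp [ell]; ring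
    exact ext1 ho hc (-μ) g F hg dF fun z hz => by rw [← hF hz]; ring

omit hc in
lemma odd0 (lam x : ℂ) (hx : x ∈ Ω) (m : ℕ) : ∀ g, DifferentiableOn ℂ g Ω →
    (∀ j < m, iteratedDeriv (2 * j + 1) g x = 0) → EqOn ((fun u => ell u - lam • u)^[m] g) 0 Ω →
    ∀ q, iteratedDeriv (2 * q + 1) g x = 0 := by
  induction m with
  | zero =>
    intro g _ _ h q
    rw [EventuallyEq.iteratedDeriv_eq _
      (show g =ᶠ[𝓝 x] fun _ => 0 from h.eventuallyEq_of_mem (ho.mem_nhds hx))]
    simp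
  | succ m ih =>
    intro g hg h0 h q
    have h2 : DifferentiableOn ℂ (ell g) Ω := (hg.deriv ho).deriv ho
    have key : ∀ j, iteratedDeriv (2 * j + 1) (ell g - lam • g) x =
        iteratedDeriv (2 * (j + 1) + 1) g x - lam * iteratedDeriv (2 * j + 1) g x := fun j => by
      rw [iteratedDeriv_sub (h2.analyticAt (ho.mem_nhds hx)).contDiffAt
        ((hg.const_smul lam).analyticAt (ho.mem_nhds hx)).contDiffAt,
        iteratedDeriv_const_smul_field, ell, ← iteratedDeriv_succ', ← iteratedDeriv_succ']; rfl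
    have := ih (ell g - lam • g) (h2.sub (hg.const_smul lam))
      (fun j hj => by rw [key, h0 _ (by omega), h0 _ (by omega)]; simp) h
    induction q with
    | zero => exact h0 0 (by omega)
    | succ q iq => simpa [key, iq] using this q

end

lemma even (G : ℂ → ℂ) (hG : Differentiable ℂ G) (c : ℂ)
    (h : ∀ q, iteratedDeriv (2 * q + 1) G c = 0) (z : ℂ) : G (c + z) = G (c - z) := by
  rw [← taylorSeries_eq_of_entire' c (c + z) hG, ← taylorSeries_eq_of_entire' c (c - z) hG]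
  refine tsum_congr fun n => ?_
  rcases Nat.even_or_odd' n with ⟨q, rfl | rfl⟩
  · simp [pow_mul]
  · simp [h]

def Ω : Set ℂ := {z | |z.re - π / 2| - 2 < z.im ∧ -1 < z.im}

noncomputable def α : ℂ := -I * exp (-1)

noncomputable def f (z : ℂ) : ℂ :=
  -I * z + log (1 - α * exp (I * z)) + log (1 - α⁻¹ * exp (I * z))

noncomputable def h (z : ℂ) : ℂ := sin z / ((α + α⁻¹) / 2 - cos z)

lemma a0 : α ≠ 0 := mul_ne_zero (neg_ne_zero.2 I_ne_zero) (exp_ne_zero _)

lemma s1 (z : ℂ) (hz : z ∈ Ω) : 1 - α * exp (I * z) ∈ slitPlane := by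
  refine sub_eq_add_neg (1 : ℂ) _ ▸ mem_slitPlane_of_norm_lt_one ?_
  rw [norm_neg, α, mul_assoc, ← exp_add, norm_mul, norm_exp]
  simp; linarith [hz.2]

lemma s2 (z : ℂ) (hz : z ∈ Ω) : 1 - α⁻¹ * exp (I * z) ∈ slitPlane := by
  have e : α⁻¹ * exp (I * z) = I * exp (1 + I * z) := by
    rw [α, mul_inv, ← exp_neg, exp_add, inv_neg, inv_I]; ring_nf
  rw [e]
  by_cases y : 1 < z.im
  · refine sub_eq_add_neg (1 : ℂ) _ ▸ mem_slitPlane_of_norm_lt_one ?_
    rw [norm_neg, norm_mul, norm_exp]; simp; linarith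
  by_contra hn
  rw [mem_slitPlane_iff, not_or, not_lt, not_not] at hn
  simp [exp_re, exp_im] at hn
  have p := Real.exp_pos (1 + -z.im)
  have x : |z.re - π / 2| < π := by linarith [hz.1, Real.pi_gt_three]
  have c1 : Real.cos (z.re - π / 2) = -1 := by
    have := Real.sin_sq_add_cos_sq z.re
    rw [hn.2] at this
    have : Real.sin z.re < 0 := by nlinarith
    rw [Real.cos_sub_pi_div_two]; nlinarith
  have := Real.cos_lt_cos_of_nonneg_of_le_pi (abs_nonneg _) le_rfl x
  rw [Real.cos_abs, Real.cos_pi] at this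
  linarith

lemma hd (z : ℂ) (hz : z ∈ Ω) : HasDerivAt f (h z) z := by
  have w := ((hasDerivAt_id' z).const_mul I).cexp
  have n1 := slitPlane_ne_zero (s1 z hz)
  have n2 := slitPlane_ne_zero (s2 z hz)
  convert! (((hasDerivAt_id' z).const_mul (-I)).fun_add
    (((w.const_mul α).const_sub 1).clog (s1 z hz))).fun_add
    (((w.const_mul α⁻¹).const_sub 1).clog (s2 z hz)) using 1
  have w0 := exp_ne_zero (I * z)
  have e : (α + α⁻¹) / 2 - cos z = -((1 - α * exp (I * z)) * (1 - α⁻¹ * exp (I * z))) /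
      (2 * exp (I * z)) := by
    have := a0
    rw [cos, neg_mul, exp_neg, mul_comm z I]; field_simp; ring
  rw [h, e, sin, neg_mul, exp_neg, mul_comm z I]
  have k : α * α⁻¹ = 1 := mul_inv_cancel₀ a0
  generalize exp (I * z) = v at *
  generalize α⁻¹ = β at *
  have n3 : 1 - v * α ≠ 0 := mul_comm α v ▸ n1
  have n4 : 1 - v * β ≠ 0 := mul_comm β v ▸ n2
  field_simp
  linear_combination (-v ^ 2) * k

lemma op : IsOpen Ω :=
  (isOpen_lt (f := fun z : ℂ => |z.re - π / 2| - 2) (g := fun z => z.im) (by fun_prop)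
    (by fun_prop)).inter (isOpen_lt (f := fun _ : ℂ => (-1 : ℝ)) (g := fun z => z.im)
    (by fun_prop) (by fun_prop))

lemma cv : Convex ℝ Ω := by
  intro x hx y hy a b ha hb hab
  have h1 := hx.1
  have h2 := hy.1
  rw [sub_lt_iff_lt_add, abs_lt] at h1 h2
  have c : ∀ p q : ℝ, 0 < p → 0 < q → 0 < a * p + b * q := fun p q hp hq => by
    rcases ha.eq_or_lt with rfl | ha' <;> nlinarith [mul_nonneg hb hq.le]
  have b1 : b = 1 - a := by linarith
  constructor
  · rw [sub_lt_iff_lt_add, abs_lt]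
    simp
    constructor
    · have := c _ _ (sub_pos.2 h1.1) (sub_pos.2 h2.1); subst b1; linarith
    · have := c _ _ (sub_pos.2 h1.2) (sub_pos.2 h2.2); subst b1; linarith
  · simp
    have := c _ _ (sub_pos.2 hx.2) (sub_pos.2 hy.2); subst b1; linarith

theorem result : ∃ Ω : Set ℂ, IsOpen Ω ∧ Convex ℝ Ω ∧ (0 : ℂ) ∈ Ω ∧ (π : ℂ) ∈ Ω ∧
    (∃ (lam : ℂ) (y₁ y₂ : ℂ → ℂ), DifferentiableOn ℂ y₁ Ω ∧ DifferentiableOn ℂ y₂ Ω ∧
      EqOn (ell y₁) (lam • y₁) Ω ∧ EqOn (ell y₂) (lam • y₂) Ω ∧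
      y₁ 0 = 1 ∧ deriv y₁ 0 = 0 ∧ y₂ 0 = 0 ∧ deriv y₂ 0 = 1 ∧
      Matrix.det !![deriv y₁ 0, deriv y₁ π; deriv y₂ 0, deriv y₂ π] ≠ 0) ∧
    ∃ f : ℂ → ℂ, DifferentiableOn ℂ f Ω ∧ (∀ q, InD (ell^[q] f)) ∧
      ∃ K ⊆ Ω, IsCompact K ∧ ∃ ε > 0, ∀ g ∈ Submodule.span ℂ {g | Root Ω g},
        ∃ z ∈ K, ε ≤ ‖g z - f z‖ := by
  have p3 := Real.pi_gt_three
  have p4 := Real.pi_lt_four
  have m0 : (0 : ℂ) ∈ Ω := ⟨by simp; rw [abs_lt]; constructor <;> linarith, by simp⟩
  have m1 : (π : ℂ) ∈ Ω := ⟨by simp; rw [abs_lt]; constructor <;> linarith, by simp⟩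
  set z : ℂ := -π / 2 + 2 * I with hz
  have z1 : z ∈ Ω := ⟨by simp [hz]; rw [sub_lt_iff_lt_add, abs_lt]; constructor <;> linarith,
    by simp [hz]; linarith⟩
  have z2 : z + 2 * π ∈ Ω := ⟨by
    simp [hz]; rw [sub_lt_iff_lt_add, abs_lt]; constructor <;> linarith, by simp [hz]; linarith⟩
  refine ⟨Ω, op, cv, m0, m1, ⟨1, cosh, sinh, by fun_prop, by fun_prop, fun _ _ => by simp [ell],
    fun _ _ => by simp [ell], by simp, by simp, by simp, by simp, ?_⟩, f,
    fun x hx => (hd x hx).differentiableAt.differentiableWithinAt, fun q => ?_, {z, z + 2 * π},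
    insert_subset z1 (singleton_subset_iff.2 z2), (toFinite _).isCompact, 1, one_pos,
    fun g hg => ?_⟩
  · simp [← ofReal_sinh, Real.pi_ne_zero]
  · have : ∀ c ∈ Ω, (∀ u, h (c + -u) = -h (c + u)) → deriv (ell^[q] f) c = 0 := fun c hc o => by
      rw [dd, iteratedDeriv_succ', EventuallyEq.iteratedDeriv_eq (g := h) _
        ((op.eventually_mem hc).mono fun x hx => (hd x hx).deriv)]
      have a := iteratedDeriv_comp_neg (2 * q) (fun u => h (c + u)) 0
      simp only [o, iteratedDeriv_fun_neg, iteratedDeriv_comp_const_add, pow_mul, neg_zero,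
        add_zero, neg_one_sq, one_pow, one_smul] at a
      linear_combination (-1 / 2) * a
    exact ⟨this 0 m0 fun u => by simp [h, neg_div], this π m1 fun u => by
      simp [h, neg_div, add_comm (π : ℂ), sin_add_pi, cos_add_pi]⟩
  · have per : g (z + 2 * π) = g z := by
      induction hg using Submodule.span_induction with
      | mem g hg =>
        obtain ⟨dg, lam, m, -, h1, h2⟩ := hg
        obtain ⟨G, dG, e⟩ := ext2 op cv lam m g dg h2
        have ev : ∀ c ∈ Ω, (∀ j < m, deriv (ell^[j] g) c = 0) → ∀ u, G (c + u) = G (c - u) :=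
          fun c hc h0 => even G dG c fun q => by
            rw [← EventuallyEq.iteratedDeriv_eq _ (e.eventuallyEq_of_mem (op.mem_nhds hc))]
            exact odd0 op lam c hc m g dg (fun j hj => dd j g ▸ h0 j hj) h2 q
        have e1 := ev 0 m0 (fun j hj => (h1 j hj).1) z
        have e2 := ev π m1 (fun j hj => (h1 j hj).2) (z + π)
        rw [e z1, e z2, show z + 2 * π = π + (z + π) by ring, e2, ← zero_add z, e1]
        congr 1; ring
      | zero => rfl
      | add _ _ _ _ a b => simp only [Pi.add_apply, a, b]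
      | smul _ _ _ a => simp only [Pi.smul_apply, a]
    have fp : f z - f (z + 2 * π) = 2 * π * I := by
      have : exp (I * (z + 2 * π)) = exp (I * z) := by
        rw [mul_add, exp_add, mul_comm I (2 * π), exp_two_pi_mul_I, mul_one]
      simp only [f, this]; ring
    by_contra hn
    push Not at hn
    have a := hn z (by simp)
    have b := hn (z + 2 * π) (by simp)
    have := norm_sub_le (g (z + 2 * π) - f (z + 2 * π)) (g z - f z)
    rw [per, show g z - f (z + 2 * π) - (g z - f z) = f z - f (z + 2 * π) by ring, fp] at this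
    simp [abs_of_pos Real.pi_pos] at this
    rw [per] at b
    linarith

end Pool.Agent.Results.MP_f3b8e9_an.NotDense
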